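import Pool.Agent.H58.FN.Targets

set_option autoImplicit false

namespace Pool.Agent.H5.FN

open Pool.Agent.H58.FL Pool.Agent.H58.FN

theorem pbs_alt1 : ∀ a b c d : Fin 6, pen b a c d = -pen a b c d := by decide +kernel
theorem pbs_alt2 : ∀ a b c d : Fin 6, pen a c b d = -pen a b c d := by decide +kernel
theorem pbs_alt3 : ∀ a b c d : Fin 6, pen a b d c = -pen a b c d := by decide +kernel

theorem pbs_coc : ∀ a b c d e : Fin 6,
    pen b c d e - pen a c d e + pen a b d e - pen a b c e + pen a b c d = 0 := by decide +kernel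

theorem pbs_ex : ∀ a b : Fin 6, a ≠ b → ∃ c d, pen a b c d ≠ 0 := by decide +kernel

theorem pbs_rim : ∀ a b c d : Fin 6, a ≠ 5 → b ≠ 5 → c ≠ 5 → d ≠ 5 → pen a b c d = 0 := by
  decide +kernel

theorem pbs_tri : ∀ j : Fin 6, j ≠ 5 → ∃ a b c, a ≠ j ∧ b ≠ j ∧ c ≠ j ∧ pen 5 a b c ≠ 0 := by
  decide +kernel

/-- the maps to four labels -/
def pbs_g (e : Fin 6) : Fin 6 → Fin 4 :=
  ![![0, 0, 1, 1, 3, 2], ![0, 0, 1, 3, 3, 2], ![0, 1, 0, 3, 0, 2], ![0, 0, 1, 0, 3, 2],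
    ![0, 1, 1, 3, 0, 2], ![0, 0, 0, 0, 0, 0]] e

theorem pbs_sub : ∀ e a b c d : Fin 6, a ≠ e → b ≠ e → c ≠ e → d ≠ e →
    pen a b c d = sg4 (pbs_g e a) (pbs_g e b) (pbs_g e c) (pbs_g e d) := by decide +kernel

theorem pbs_emb : ∀ a b c d : Fin 4, sg4 a b c d = pen ((![0, 1, 5, 3] : Fin 4 → Fin 6) a)
    ((![0, 1, 5, 3] : Fin 4 → Fin 6) b) ((![0, 1, 5, 3] : Fin 4 → Fin 6) c)
    ((![0, 1, 5, 3] : Fin 4 → Fin 6) d) := by decide +kernel

theorem pbs_four : ∀ a b c d : Fin 4, sg4 a b c d ≠ 0 → Function.Injective ![a, b, c, d] := by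
  decide +kernel

theorem pbs_f6 (f : Fin 6 → Fin 6) (hf : ∀ i j k l, pen i j k l = pen (f i) (f j) (f k) (f l)) :
    Function.Bijective f ∧ f 5 = 5 := by
  have hinj : Function.Injective f := by
    intro a b hab
    by_contra hne
    obtain ⟨c, d, hcd⟩ := pbs_ex a b hne
    rw [hf a b c d, hab] at hcd
    have h1 := pbs_alt1 (f b) (f b) (f c) (f d)
    exact hcd (by omega)
  have hbij : Function.Bijective f := Finite.injective_iff_bijective.1 hinj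
  refine ⟨hbij, ?_⟩
  by_contra h5
  obtain ⟨j, hj⟩ := hbij.2 5
  have hj5 : j ≠ 5 := fun h => h5 (by rw [h] at hj; exact hj)
  obtain ⟨a, b, c, ha, hb, hc, hp⟩ := pbs_tri j hj5
  rw [hf 5 a b c] at hp
  refine hp (pbs_rim _ _ _ _ h5 (fun h => ha ?_) (fun h => hb ?_) (fun h => hc ?_))
  · exact hinj (h.trans hj.symm)
  · exact hinj (h.trans hj.symm)
  · exact hinj (h.trans hj.symm)

theorem pbs_f4 (f : Fin 4 → Fin 4) (hf : sg4 (f 0) (f 1) (f 2) (f 3) ≠ 0) :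
    Function.Bijective f := by
  have h1 := pbs_four _ _ _ _ hf
  have h2 : (![f 0, f 1, f 2, f 3] : Fin 4 → Fin 4) = f := by
    funext i
    fin_cases i <;> rfl
  rw [h2] at h1
  exact Finite.injective_iff_bijective.1 h1

theorem pf_PBS : T_PBS :=
  ⟨fun a b c d => ⟨pbs_alt1 a b c d, pbs_alt2 a b c d, pbs_alt3 a b c d⟩, pbs_coc, pbs_ex, pbs_rim,
    fun e => ⟨pbs_g e, pbs_sub e⟩, ⟨![0, 1, 5, 3], pbs_emb⟩, pbs_f6, pbs_f4⟩

end Pool.Agent.H5.FN
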